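import Pool.Agent.Run7.h404.FL.Iface

/-!
Piece SECL of project FL (helper404): the line fibres have a continuous section.
-/

set_option autoImplicit false

namespace Run7.h281.FL

open Set Topology Filter Run7.h404.FL MeasureTheory

/-- the mean position of the monotone function `h (∫_a^t w)` -/
noncomputable def GG (h w : ℝ → ℝ) (a b : ℝ) : ℝ := a + ∫ t in a..b, h (∫ s in a..t, w s)

/-- `w` vanishes up to `a` and has at least the mass `c` in `[a, b]` -/
def Good (w : ℝ → ℝ) (c a b : ℝ) : Prop :=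
  (∀ t ≤ a, w t = 0) ∧ a ≤ b ∧ c ≤ ∫ t in a..b, w t

lemma int_zero {w : ℝ → ℝ} {a b c : ℝ} (hw : ∀ t ≤ a, w t = 0) (hb : b ≤ a) (hc : c ≤ a) :
    ∫ t in b..c, w t = 0 := by
  rw [intervalIntegral.integral_congr (g := fun _ => (0 : ℝ))]
  · simp
  · intro t ht
    rw [mem_uIcc] at ht
    apply hw
    rcases ht with h | h <;> linarith [h.1, h.2]

lemma GG_left {h w : ℝ → ℝ} (hw : Continuous w) (hh : Continuous h) (h0 : h 0 = 1) {a a' b : ℝ}
    (ha : a' ≤ a) (hz : ∀ t ≤ a, w t = 0) : GG h w a' b = GG h w a b := by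
  have hi : ∀ u v : ℝ, IntervalIntegrable w volume u v := fun u v => hw.intervalIntegrable u v
  have e1 : ∀ t, ∫ s in a'..t, w s = ∫ s in a..t, w s := by
    intro t
    rw [← intervalIntegral.integral_add_adjacent_intervals (hi a' a) (hi a t),
      int_zero hz ha le_rfl, zero_add]
  unfold GG
  have hc : Continuous fun t : ℝ => h (∫ s in a..t, w s) :=
    hh.comp (intervalIntegral.continuous_primitive hi a)
  have e2 : ∫ t in a'..a, h (∫ s in a..t, w s) = a - a' := by
    rw [intervalIntegral.integral_congr (g := fun _ => (1 : ℝ))]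
    · simp
    · intro t ht
      rw [uIcc_of_le ha] at ht
      show h (∫ s in a..t, w s) = 1
      rw [int_zero hz le_rfl ht.2, h0]
  simp only [e1]
  rw [← intervalIntegral.integral_add_adjacent_intervals (hc.intervalIntegrable a' a)
    (hc.intervalIntegrable a b), e2]
  ring

lemma GG_right {h w : ℝ → ℝ} (hw : Continuous w) (hh : Continuous h) {c : ℝ}
    (hc : ∀ u, c ≤ u → h u = 0) (hn : ∀ t, 0 ≤ w t) {a b b' : ℝ}
    (hb : b ≤ b') (hm : c ≤ ∫ t in a..b, w t) : GG h w a b' = GG h w a b := by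
  have hi : ∀ u v : ℝ, IntervalIntegrable w volume u v := fun u v => hw.intervalIntegrable u v
  have hcc : Continuous fun t : ℝ => h (∫ s in a..t, w s) :=
    hh.comp (intervalIntegral.continuous_primitive hi a)
  unfold GG
  rw [← intervalIntegral.integral_add_adjacent_intervals (hcc.intervalIntegrable a b)
    (hcc.intervalIntegrable b b')]
  have e2 : ∫ t in b..b', h (∫ s in a..t, w s) = 0 := by
    rw [intervalIntegral.integral_congr (g := fun _ => (0 : ℝ))]
    · simp
    · intro t ht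
      rw [uIcc_of_le hb] at ht
      show h (∫ s in a..t, w s) = 0
      apply hc
      rw [← intervalIntegral.integral_add_adjacent_intervals (hi a b) (hi b t)]
      have := intervalIntegral.integral_nonneg (μ := volume) ht.1 (fun u _ => hn u)
      linarith
  rw [e2, add_zero]

lemma GG_uniq {h w : ℝ → ℝ} (hw : Continuous w) (hh : Continuous h) (h0 : h 0 = 1) {c : ℝ}
    (hc : ∀ u, c ≤ u → h u = 0) (hn : ∀ t, 0 ≤ w t) {a b a' b' : ℝ} (H : Good w c a b)
    (H' : Good w c a' b') : GG h w a b = GG h w a' b' := by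
  have hi : ∀ u v : ℝ, IntervalIntegrable w volume u v := fun u v => hw.intervalIntegrable u v
  have key : ∀ {a b a₀ b₀ : ℝ}, Good w c a b → a₀ ≤ a → b ≤ b₀ → GG h w a₀ b₀ = GG h w a b := by
    intro a b a₀ b₀ H ha hb
    rw [← GG_left hw hh h0 ha H.1]
    apply GG_right hw hh hc hn hb
    rw [← intervalIntegral.integral_add_adjacent_intervals (hi a₀ a) (hi a b),
      int_zero H.1 ha le_rfl, zero_add]
    exact H.2.2
  rw [← key H (min_le_left a a') (le_max_left b b'),
    ← key H' (min_le_right a a') (le_max_right b b')]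

lemma GG_shift (h w : ℝ → ℝ) (a b s : ℝ) :
    GG h (fun t => w (t + s)) a b = GG h w (a + s) (b + s) - s := by
  unfold GG
  have e : ∀ t, ∫ u in a..t, w (u + s) = ∫ u in (a + s)..(t + s), w u := fun t =>
    intervalIntegral.integral_comp_add_right (fun u => w u) s
  simp only [e]
  rw [intervalIntegral.integral_comp_add_right (fun t => h (∫ u in (a + s)..t, w u)) s]
  ring

lemma Good_shift {w : ℝ → ℝ} {c a b s : ℝ} (H : Good (fun t => w (t + s)) c a b) :
    Good w c (a + s) (b + s) := by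
  obtain ⟨h1, h2, h3⟩ := H
  refine ⟨fun t ht => ?_, by linarith, ?_⟩
  · have := h1 (t - s) (by linarith)
    simpa using this
  · have e : ∫ u in a..b, w (u + s) = ∫ u in (a + s)..(b + s), w u :=
      intervalIntegral.integral_comp_add_right (fun u => w u) s
    rw [← e]
    exact h3

section flow

variable {Q : Type} [MetricSpace Q] {Φ : ℝ → E5 → E5} {p : E5 → Q}

lemma fl_inv (hF : Fl Φ p) (r : ℝ) (x : E5) : Φ (-r) (Φ r x) = x := by
  rw [← hF.add, neg_add_cancel, hF.zero]

lemma fl_inv' (hF : Fl Φ p) (r : ℝ) (x : E5) : Φ r (Φ (-r) x) = x := by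
  rw [← hF.add, add_neg_cancel, hF.zero]

lemma fl_p (hF : Fl Φ p) (r : ℝ) (x : E5) : p (Φ r x) = p x :=
  ((hF.fib x (Φ r x)).2 ⟨r, rfl⟩).symm

lemma fl_c (hF : Fl Φ p) (r : ℝ) : Continuous (Φ r) :=
  hF.cont.comp (Continuous.prodMk continuous_const continuous_id)

lemma fl_t (hF : Fl Φ p) (x : E5) : Continuous fun t => Φ t x :=
  hF.cont.comp (Continuous.prodMk continuous_id continuous_const)

/-- first pass -/
lemma first_pass [CompactSpace Q] (hP : S_PRO) (hN : S_NEAR) (hF : Fl Φ p) {R : ℝ}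
    (hR : ∀ q, ∃ x, ‖x‖ ≤ R ∧ p x = q) {x : E5} {T : ℝ}
    (hT : ∀ t, T ≤ |t| → Φ t x ∉ Metric.closedBall (0 : E5) (R + 1)) {U : Set E5} (hU : U ∈ 𝓝 x) :
    ∃ B ∈ 𝓝 (p x), ∀ q' ∈ B, ¬ Cp p q' → ∃ x' ∈ U, p x' = q' ∧
      ∀ t, t ≤ -T → Φ t x' ∉ Metric.closedBall (0 : E5) (R + 1) := by
  obtain ⟨U', hU'U, hU'o, hxU'⟩ := mem_nhds_iff.1 hU
  set K : Set E5 := Metric.closedBall (0 : E5) (R + 1) with hK
  have hKc : IsCompact K := isCompact_closedBall _ _
  let W : Set E5 := ⋃ r ∈ {r : ℝ | |r| < T}, (Φ (-r)) ⁻¹' U'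
  have hWo : IsOpen W := isOpen_biUnion fun r _ => hU'o.preimage (fl_c hF (-r))
  obtain ⟨B, hB, hBW⟩ := (hN Q Φ p hF).1 K W (p x) hKc hWo (by
    intro y hy hpy
    obtain ⟨r, hr⟩ := (hF.fib x y).1 hpy.symm
    have hrT : |r| < T := by
      by_contra hcon
      exact hT r (not_lt.1 hcon) (hr ▸ hy)
    refine mem_iUnion₂.2 ⟨r, hrT, ?_⟩
    show Φ (-r) y ∈ U'
    rw [← hr, fl_inv hF]
    exact hxU')
  refine ⟨B, hB, fun q' hq' hL => ?_⟩
  obtain ⟨z, hz, hzq⟩ := hR q'
  have hzK : z ∈ K := by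
    rw [hK, mem_closedBall_zero_iff]; linarith
  obtain ⟨T', hT'0, hT'⟩ := ((hP Q Φ p hF z).2 (by rw [hzq]; exact hL)).2 K hKc
  have hSc : IsCompact {t : ℝ | Φ t z ∈ K} := by
    apply IsCompact.of_isClosed_subset (isCompact_Icc (a := -T') (b := T'))
    · exact hKc.isClosed.preimage (fl_t hF z)
    · intro t ht
      have : |t| < T' := by
        by_contra hcon
        exact hT' t (not_lt.1 hcon) ht
      rw [abs_lt] at this
      exact ⟨this.1.le, this.2.le⟩
  obtain ⟨t₀, ht₀, hmin⟩ := hSc.exists_isLeast ⟨0, by rw [mem_ofPred_eq, hF.zero]; exact hzK⟩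
  have hy₀ : Φ t₀ z ∈ W := hBW _ ht₀ (by rw [fl_p hF, hzq]; exact hq')
  obtain ⟨r, hr, hrU⟩ := mem_iUnion₂.1 hy₀
  change |r| < T at hr
  change Φ (-r) (Φ t₀ z) ∈ U' at hrU
  refine ⟨_, hU'U hrU, by rw [fl_p hF, fl_p hF, hzq], fun t ht hcon => ?_⟩
  rw [← hF.add, ← hF.add] at hcon
  have h1 := hmin hcon
  rw [abs_lt] at hr
  linarith

end flow

theorem t_SECL (hP : S_PRO) (hN : S_NEAR) : S_SECL := by
  intro Q _ _ Φ p hF
  -- a ball which meets all orbits
  obtain ⟨R, hR⟩ : ∃ R : ℝ, ∀ q, ∃ x : E5, ‖x‖ ≤ R ∧ p x = q := by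
    have hcov : (univ : Set Q) ⊆ ⋃ n : ℕ, p '' Metric.ball (0 : E5) n := by
      intro q _
      obtain ⟨x, hx⟩ := hF.psurj q
      obtain ⟨n, hn⟩ := exists_nat_gt ‖x‖
      exact mem_iUnion.2 ⟨n, x, by rw [mem_ball_zero_iff]; exact hn, hx⟩
    obtain ⟨s, hs⟩ := isCompact_univ.elim_finite_subcover _
      (fun n => hF.popen _ Metric.isOpen_ball) hcov
    obtain ⟨N, hN⟩ := s.bddAbove
    refine ⟨N, fun q => ?_⟩
    obtain ⟨n, hn, x, hx, hxq⟩ := mem_iUnion₂.1 (hs (mem_univ q))
    rw [mem_ball_zero_iff] at hx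
    have : (n : ℝ) ≤ N := by exact_mod_cast hN hn
    exact ⟨x, by linarith, hxq⟩
  let ρ : E5 → ℝ := fun x => max 0 (R + 1 - ‖x‖)
  have hρc : Continuous ρ := continuous_const.max (continuous_const.sub continuous_norm)
  have hρ0 : ∀ x, 0 ≤ ρ x := fun x => le_max_left _ _
  have hρK : ∀ x, x ∉ Metric.closedBall (0 : E5) (R + 1) → ρ x = 0 := by
    intro x hx
    rw [mem_closedBall_zero_iff, not_le] at hx
    exact max_eq_left (by linarith)
  have hwc : ∀ x, Continuous fun t => ρ (Φ t x) := fun x => hρc.comp (fl_t hF x)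
  -- the joint function
  have hjc : Continuous fun z : E5 × ℝ => ρ (Φ z.2 z.1) :=
    hρc.comp (hF.cont.comp (Continuous.prodMk continuous_snd continuous_fst))
  have hIc : ∀ a b : ℝ, Continuous fun x : E5 => ∫ s in a..b, ρ (Φ s x) := fun a b =>
    intervalIntegral.continuous_parametric_intervalIntegral_of_continuous' hjc a b
  -- uniform lower bound of the mass
  obtain ⟨κ, hκ0, hκ⟩ : ∃ κ : ℝ, 0 < κ ∧ ∀ x : E5, ‖x‖ ≤ R → κ ≤ ∫ s in (-1 : ℝ)..1, ρ (Φ s x) := by
    rcases (Metric.closedBall (0 : E5) R).eq_empty_or_nonempty with he | hne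
    · refine ⟨1, one_pos, fun x hx => ?_⟩
      have : x ∈ Metric.closedBall (0 : E5) R := by rw [mem_closedBall_zero_iff]; exact hx
      rw [he] at this
      exact absurd this (notMem_empty x)
    · obtain ⟨x₀, hx₀, hmin⟩ := (isCompact_closedBall (0 : E5) R).exists_isMinOn hne
        (hIc (-1) 1).continuousOn
      refine ⟨∫ s in (-1 : ℝ)..1, ρ (Φ s x₀), ?_, fun x hx => ?_⟩
      · refine intervalIntegral.integral_pos (by norm_num) (hwc x₀).continuousOn
          (fun t _ => hρ0 _) ⟨0, ⟨by norm_num, by norm_num⟩, ?_⟩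
        show 0 < ρ (Φ 0 x₀)
        rw [hF.zero]
        rw [mem_closedBall_zero_iff] at hx₀
        exact lt_max_of_lt_right (by linarith)
      · exact hmin (show x ∈ Metric.closedBall (0 : E5) R by rw [mem_closedBall_zero_iff]; exact hx)
  -- the cut-off
  set c : ℝ := κ / 2 with hc
  have hc0 : 0 < c := by positivity
  let h : ℝ → ℝ := fun u => max 0 (1 - u / c)
  have hh : Continuous h := continuous_const.max (continuous_const.sub (continuous_id.div_const c))
  have h0 : h 0 = 1 := by simp [h]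
  have hcc : ∀ u, c ≤ u → h u = 0 := by
    intro u hu
    apply max_eq_left
    rw [sub_nonpos, le_div_iff₀ hc0, one_mul]
    exact hu
  -- the point of the orbit
  let pt : ℝ → ℝ → E5 → E5 := fun a b x => Φ (GG h (fun t => ρ (Φ t x)) a b) x
  have hpt : ∀ {x y : E5} {a b a' b' : ℝ}, p x = p y → Good (fun t => ρ (Φ t x)) c a b →
      Good (fun t => ρ (Φ t y)) c a' b' → pt a b x = pt a' b' y := by
    intro x y a b a' b' hxy H H'
    obtain ⟨s, hs⟩ := (hF.fib x y).1 hxy
    have e : (fun t => ρ (Φ t y)) = fun t => (fun t => ρ (Φ t x)) (t + s) := by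
      funext t
      show ρ (Φ t y) = ρ (Φ (t + s) x)
      rw [hF.add, hs]
    show Φ (GG h (fun t => ρ (Φ t x)) a b) x = Φ (GG h (fun t => ρ (Φ t y)) a' b') y
    rw [e] at H'
    rw [e, show GG h (fun t => (fun t => ρ (Φ t x)) (t + s)) a' b' =
      GG h (fun t => ρ (Φ t x)) (a' + s) (b' + s) - s from GG_shift h (fun t => ρ (Φ t x)) a' b' s,
      GG_uniq (hwc x) hh h0 hcc (fun t => hρ0 _) H (Good_shift H'), ← hs, ← hF.add,
      sub_add_cancel]
  have hptc : ∀ a b : ℝ, Continuous (pt a b) := by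
    intro a b
    refine hF.cont.comp (Continuous.prodMk ?_ continuous_id)
    show Continuous fun x : E5 => a + ∫ t in a..b, h (∫ s in a..t, ρ (Φ s x))
    refine continuous_const.add
      (intervalIntegral.continuous_parametric_intervalIntegral_of_continuous' ?_ a b)
    show Continuous fun z : E5 × ℝ => h (∫ s in a..z.2, ρ (Φ s z.1))
    refine hh.comp ?_
    refine intervalIntegral.continuous_parametric_intervalIntegral_of_continuous
      (f := fun (z : E5 × ℝ) (s : ℝ) => ρ (Φ s z.1)) ?_ continuous_snd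
    exact hρc.comp (hF.cont.comp (Continuous.prodMk continuous_snd
      (continuous_fst.comp continuous_fst)))
  -- choices
  choose X hX hXp using hR
  have hTex : ∀ q : Q, ∃ T : ℝ, ¬ Cp p q → 1 ≤ T ∧
      ∀ t, T ≤ |t| → Φ t (X q) ∉ Metric.closedBall (0 : E5) (R + 1) := by
    intro q
    by_cases hq : Cp p q
    · exact ⟨0, fun h => absurd hq h⟩
    · obtain ⟨T, hT0, hT⟩ := ((hP Q Φ p hF (X q)).2 (by rw [hXp]; exact hq)).2 _
        (isCompact_closedBall (0 : E5) (R + 1))
      exact ⟨max T 1, fun _ => ⟨le_max_right _ _, fun t ht => hT t ((le_max_left _ _).trans ht)⟩⟩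
  choose T hT using hTex
  have hmass : ∀ q, ¬ Cp p q → κ ≤ ∫ s in (-T q)..(T q), ρ (Φ s (X q)) := by
    intro q hq
    refine (hκ (X q) (hX q)).trans ?_
    apply intervalIntegral.integral_mono_interval (by linarith [(hT q hq).1]) (by norm_num)
      (hT q hq).1
    · exact Eventually.of_forall fun t => hρ0 _
    · exact (hwc (X q)).intervalIntegrable _ _
  have hgood : ∀ q, ¬ Cp p q → Good (fun t => ρ (Φ t (X q))) c (-T q) (T q) := by
    intro q hq
    have h1 := (hT q hq).1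
    refine ⟨fun t ht => hρK _ ((hT q hq).2 t ?_), by linarith, ?_⟩
    · rw [abs_of_nonpos (by linarith)]; linarith
    · have := hmass q hq
      linarith
  refine ⟨fun q => pt (-T q) (T q) (X q), fun q _ => ?_, ?_⟩
  · show p (Φ _ (X q)) = q
    rw [fl_p hF, hXp]
  · intro q hq
    change ¬ Cp p q at hq
    rw [Metric.continuousWithinAt_iff']
    intro ε hε
    have hU1 : ∀ᶠ x' in 𝓝 (X q), dist (pt (-T q) (T q) x') (pt (-T q) (T q) (X q)) < ε :=
      Metric.tendsto_nhds.1 ((hptc (-T q) (T q)).tendsto (X q)) ε hε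
    have hU2 : ∀ᶠ x' in 𝓝 (X q), c < ∫ s in (-T q)..(T q), ρ (Φ s x') := by
      apply (hIc (-T q) (T q)).continuousAt.eventually_const_lt
      have := hmass q hq
      linarith
    obtain ⟨B, hB, hBx⟩ := first_pass hP hN hF (fun q => ⟨X q, hX q, hXp q⟩) (hT q hq).2
      (hU1.and hU2)
    rw [hXp] at hB
    rw [eventually_nhdsWithin_iff]
    filter_upwards [hB] with q' hq' hL'
    change ¬ Cp p q' at hL'
    obtain ⟨x', ⟨h1, h2⟩, hpx, h3⟩ := hBx q' hq' hL'
    have hg : Good (fun t => ρ (Φ t x')) c (-T q) (T q) :=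
      ⟨fun t ht => hρK _ (h3 t ht), by linarith [(hT q hq).1], h2.le⟩
    show dist (pt (-T q') (T q') (X q')) (pt (-T q) (T q) (X q)) < ε
    rw [hpt (by rw [hXp, hpx]) (hgood q' hL') hg]
    exact h1

end Run7.h281.FL
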